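import Mathlib
import Pool.Agent.Helper71.SuspDefs
import Pool.Agent.Helper71.SuspHtpy
import Pool.Agent.Helper71.SuspGroup
import Pool.Agent.Helper71.SuspMain

/-!
MP_dcced1_gt, partial answer: for every graph `X` and every `n ≥ 3` the collapse map
`Σ_{n+1} X → Σ_n X` is a bijection on `A_0`, an isomorphism on `A_k` for `1 ≤ k ≤ n - 1` and
surjective on `A_n`, at every base vertex.
-/

open Pool.Agent.Helper71.AHtpy in
/-- The collapse map `Σ_{n+1} X → Σ_n X` is `n`-connected for A-homotopy groups. -/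
theorem Pool.Agent.Results.MP_dcced1_gt.CollapseConnected.result.{u} {V : Type u}
    (X : SimpleGraph V) (n : ℕ) (hn : 3 ≤ n) :
    ∃ hp : IsGraphMap (Susp X (n + 1)) (Susp X n) (collapse V n),
      Function.Bijective (A0map hp) ∧
      (∀ (v : Quotient (suspSetoid V (n + 1))) (k : ℕ), 1 ≤ k → k ≤ n - 1 →
        Function.Bijective (AGrp.map k hp v)) ∧
      (∀ v : Quotient (suspSetoid V (n + 1)), Function.Surjective (AGrp.map n hp v)) ∧
      (∀ (v : Quotient (suspSetoid V (n + 1))) (j : ℕ) (a b : AGrp (j + 1) (Susp X (n + 1)) v),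
        AGrp.map (j + 1) hp v (AGrp.mul a b) =
          AGrp.mul (AGrp.map (j + 1) hp v a) (AGrp.map (j + 1) hp v b)) :=
  ⟨collapse_isGraphMap X n, A0_bijective X n,
    fun v k _ hk => ⟨inj hn (by omega) v, surj hn (by omega) v⟩,
    fun v => surj hn le_rfl v,
    fun _ _ a b => AGrp.map_mul _ a b⟩
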