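import Pool.Agent.Helper71.SD.All

/-!
MP_dcced1_gt, full answer (disproof): there are a graph `X` and an integer `n ≥ 5` such that the
suspensions `Σ_{n+1} X` and `Σ_n X` are not weakly homotopy equivalent.
-/

open Pool.Agent.Helper71.AHtpy Pool.Agent.Helper71.SD in
/-- The graph suspensions `Σ_{n+1} X` and `Σ_n X` are not always weakly homotopy equivalent. -/
theorem Pool.Agent.Results.MP_dcced1_gt.SuspensionsDiffer.result :
    ∃ (V : Type) (X : SimpleGraph V) (n : ℕ), 5 ≤ n ∧ ¬ WHE (Susp X (n + 1)) (Susp X n) :=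
  suspensions_differ
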